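import Mathlib

/-!
# An erasing substitution and the associated interval map
-/

set_option autoImplicit false

open Set Filter Topology MeasureTheory

namespace Pool.Agent.Q188.ES

/-- The binary digit of `x ∈ (0,1]` at position `k ≥ 1` in the expansion which is not eventually
`0`: the partial sums `∑_{i ≤ k} b_i 2^(-i)` are the numbers `(⌈2^k x⌉ - 1) / 2^k`. (At `k = 0` the
value is `0`.) -/
noncomputable def digit (x : ℝ) (k : ℕ) : ℤ := (⌈2 ^ k * x⌉ - 1) % 2

/-- the number of digits `1` at the positions up to `k` -/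
noncomputable def ones (x : ℝ) (k : ℕ) : ℕ := ∑ i ∈ Finset.range (k + 1), if digit x i = 1 then 1 else 0

/-- the terms of the series for `Rs` -/
noncomputable def tm (s : Bool) (x : ℝ) (k : ℕ) : ℝ :=
  if digit x k = 1 ∧ Even (k + s.toNat) then (1 / 2) ^ ones x k else 0

/-- the map with the position counter started at `s` -/
noncomputable def Rs (s : Bool) (x : ℝ) : ℝ := ∑' k, tm s x k

/-- The map `R`: `R(0) = 2/3`, and for `x ∈ (0,1]`, `R(x) = ∑_j c_j 2^(-j)`, where `c_j = 1` if the
`j`-th digit `1` of `x` is at an even position and `c_j = 0` otherwise. In the sum below, if the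
digit at position `k` is the `j`-th digit `1`, then `j = ones x k`. -/
noncomputable def R (x : ℝ) : ℝ :=
  if 0 < x then ∑' k : ℕ, (if digit x k = 1 ∧ Even k then (1 / 2 : ℝ) ^ ones x k else 0) else 2 / 3

lemma R_of_pos {x : ℝ} (hx : 0 < x) : R x = Rs false x := by
  rw [R, if_pos hx, Rs]
  rfl

/-! ### Digits -/

lemma digit_zero {x : ℝ} (hx : x ∈ Ioc (0 : ℝ) 1) : digit x 0 = 0 := by
  have : ⌈(2 : ℝ) ^ 0 * x⌉ = 1 := by
    rw [Int.ceil_eq_iff]
    constructor
    · simpa using hx.1
    · simpa using hx.2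
  rw [digit, this]
  norm_num

lemma digit_half (x : ℝ) (k : ℕ) : digit (x / 2) (k + 1) = digit x k := by
  rw [digit, digit, show (2 : ℝ) ^ (k + 1) * (x / 2) = 2 ^ k * x by ring]

lemma digit_half' {x : ℝ} (k : ℕ) (hk : 1 ≤ k) :
    digit ((1 + x) / 2) (k + 1) = digit x k := by
  rw [digit, digit]
  have h1 : (2 : ℝ) ^ (k + 1) * ((1 + x) / 2) = 2 ^ k * x + ((2 ^ k : ℤ) : ℝ) := by
    push_cast; ring
  rw [h1, Int.ceil_add_intCast]
  have h2 : (2 : ℤ) ∣ 2 ^ k := dvd_pow_self 2 (by omega)
  omega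

lemma digit_one' {x : ℝ} (hx : x ∈ Ioc (0 : ℝ) 1) : digit ((1 + x) / 2) 1 = 1 := by
  have : ⌈(2 : ℝ) ^ 1 * ((1 + x) / 2)⌉ = 2 := by
    rw [Int.ceil_eq_iff]
    constructor
    · push_cast; linarith [hx.1]
    · push_cast; linarith [hx.2]
  rw [digit, this]
  norm_num

lemma mem_half {x : ℝ} (hx : x ∈ Ioc (0 : ℝ) 1) : x / 2 ∈ Ioc (0 : ℝ) 1 :=
  ⟨by linarith [hx.1], by linarith [hx.2]⟩

lemma mem_half' {x : ℝ} (hx : x ∈ Ioc (0 : ℝ) 1) : (1 + x) / 2 ∈ Ioc (0 : ℝ) 1 :=
  ⟨by linarith [hx.1], by linarith [hx.2]⟩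

lemma ones_half {x : ℝ} (hx : x ∈ Ioc (0 : ℝ) 1) (k : ℕ) : ones (x / 2) (k + 1) = ones x k := by
  rw [ones, Finset.sum_range_succ', digit_zero (mem_half hx)]
  simp only [digit_half]
  simp [ones]

lemma ones_half' {x : ℝ} (hx : x ∈ Ioc (0 : ℝ) 1) (k : ℕ) :
    ones ((1 + x) / 2) (k + 1) = ones x k + 1 := by
  induction k with
  | zero =>
    simp only [ones, Finset.sum_range_succ, Finset.range_zero, Finset.sum_empty,
      digit_zero (mem_half' hx), digit_zero hx, digit_one' hx]
    norm_num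
  | succ k ih =>
    have e1 : ones ((1 + x) / 2) (k + 1 + 1) = ones ((1 + x) / 2) (k + 1) +
        (if digit ((1 + x) / 2) (k + 1 + 1) = 1 then 1 else 0) := by
      rw [ones, Finset.sum_range_succ]; rfl
    have e2 : ones x (k + 1) = ones x k + (if digit x (k + 1) = 1 then 1 else 0) := by
      rw [ones, Finset.sum_range_succ]; rfl
    rw [e1, e2, ih, digit_half' (k + 1) (by omega)]
    ring

lemma ones_succ (x : ℝ) (k : ℕ) :
    ones x (k + 1) = ones x k + (if digit x (k + 1) = 1 then 1 else 0) := by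
  rw [ones, Finset.sum_range_succ]; rfl

/-- the full sum over the digits `1` -/
lemma partial_sum (x : ℝ) (n : ℕ) :
    ∑ k ∈ Finset.range (n + 1), (if digit x k = 1 then (1 / 2 : ℝ) ^ ones x k else 0)
      = 1 - (1 / 2) ^ ones x n := by
  induction n with
  | zero =>
    simp only [Finset.range_one, Finset.sum_singleton, ones, zero_add]
    split_ifs <;> norm_num
  | succ n ih =>
    rw [Finset.sum_range_succ, ih, ones_succ]
    split_ifs
    · rw [pow_succ]; ring
    · ring

lemma tm_nonneg (s : Bool) (x : ℝ) (k : ℕ) : 0 ≤ tm s x k := by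
  unfold tm
  split_ifs <;> positivity

lemma tm_le (s : Bool) (x : ℝ) (k : ℕ) :
    tm s x k ≤ if digit x k = 1 then (1 / 2 : ℝ) ^ ones x k else 0 := by
  unfold tm
  by_cases h : digit x k = 1
  · by_cases h2 : Even (k + s.toNat)
    · simp [h, h2]
    · simp [h, h2]
  · simp [h]

lemma sum_tm_le (s : Bool) (x : ℝ) (n : ℕ) : ∑ k ∈ Finset.range n, tm s x k ≤ 1 := by
  cases n with
  | zero => simp
  | succ n =>
    refine (Finset.sum_le_sum fun k _ => tm_le s x k).trans ?_
    rw [partial_sum]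
    have : (0 : ℝ) < (1 / 2) ^ ones x n := by positivity
    linarith

lemma summable_tm (s : Bool) (x : ℝ) : Summable (tm s x) :=
  summable_of_sum_range_le (tm_nonneg s x) (sum_tm_le s x)

lemma Rs_nonneg (s : Bool) (x : ℝ) : 0 ≤ Rs s x := tsum_nonneg (tm_nonneg s x)

lemma Rs_le (s : Bool) (x : ℝ) : Rs s x ≤ 1 :=
  Real.tsum_le_of_sum_range_le (tm_nonneg s x) (sum_tm_le s x)

lemma Rs_mem (s : Bool) (x : ℝ) : Rs s x ∈ Icc (0 : ℝ) 1 := ⟨Rs_nonneg s x, Rs_le s x⟩

/-- value of a bit -/
def bv (b : Bool) : ℝ := if b then 1 else 0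

lemma even_shift (s : Bool) (k : ℕ) : Even (k + 1 + s.toNat) ↔ Even (k + (!s).toNat) := by
  cases s
  · simp
  · simp only [Bool.toNat_true, Bool.not_true, Bool.toNat_false, add_zero]
    rw [add_assoc]
    simp [Nat.even_add]

lemma Rs_half {s : Bool} {x : ℝ} (hx : x ∈ Ioc (0 : ℝ) 1) : Rs s (x / 2) = Rs (!s) x := by
  rw [Rs, (summable_tm s (x / 2)).tsum_eq_zero_add, Rs]
  have h0 : tm s (x / 2) 0 = 0 := by
    rw [tm, digit_zero (mem_half hx)]; simp
  rw [h0, zero_add]
  congr 1
  funext k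
  rw [tm, tm, digit_half, ones_half hx]
  simp only [even_shift]

lemma Rs_half' {s : Bool} {x : ℝ} (hx : x ∈ Ioc (0 : ℝ) 1) :
    Rs s ((1 + x) / 2) = (bv s + Rs (!s) x) / 2 := by
  have hsum := summable_tm s ((1 + x) / 2)
  have hsum1 : Summable fun k => tm s ((1 + x) / 2) (k + 1) := (summable_nat_add_iff 1).2 hsum
  rw [Rs, hsum.tsum_eq_zero_add, hsum1.tsum_eq_zero_add]
  have h0 : tm s ((1 + x) / 2) 0 = 0 := by
    rw [tm, digit_zero (mem_half' hx)]; simp
  have h1 : tm s ((1 + x) / 2) (0 + 1) = bv s / 2 := by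
    rw [tm, digit_one' hx, ones_half' hx]
    have : ones x 0 = 0 := by simp [ones, digit_zero hx]
    rw [this]
    cases s <;> simp [bv]
  have h2 : ∀ k, tm s ((1 + x) / 2) (k + 1 + 1) = tm (!s) x (k + 1) / 2 := by
    intro k
    rw [tm, tm, digit_half' (k + 1) (by omega), ones_half' hx]
    simp only [even_shift]
    split_ifs
    · rw [pow_succ]; ring
    · ring
  have h3 : Rs (!s) x = ∑' k, tm (!s) x (k + 1) := by
    rw [Rs, (summable_tm (!s) x).tsum_eq_zero_add]
    have : tm (!s) x 0 = 0 := by rw [tm, digit_zero hx]; simp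
    rw [this, zero_add]
  rw [h0, h1, h3]
  simp only [h2]
  rw [tsum_div_const]
  ring

/-! ### Words -/

/-- `A w y = 0.w y` -/
noncomputable def A : List Bool → ℝ → ℝ
  | [], y => y
  | b :: w, y => (bv b + A w y) / 2

lemma bv_mem (b : Bool) : bv b ∈ Icc (0 : ℝ) 1 := by cases b <;> simp [bv]

lemma A_append (w w' : List Bool) (y : ℝ) : A (w ++ w') y = A w (A w' y) := by
  induction w with
  | nil => rfl
  | cons b w ih => rw [List.cons_append, A, A, ih]

lemma A_affine (w : List Bool) (y : ℝ) : A w y = A w 0 + (1 / 2) ^ w.length * y := by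
  induction w with
  | nil => simp [A]
  | cons b w ih =>
    rw [A, A, ih, List.length_cons, pow_succ]
    ring

lemma A_mem {w : List Bool} {y : ℝ} (hy : y ∈ Ioc (0 : ℝ) 1) : A w y ∈ Ioc (0 : ℝ) 1 := by
  induction w with
  | nil => exact hy
  | cons b w ih =>
    have := bv_mem b
    rw [A]
    constructor
    · linarith [ih.1, this.1]
    · linarith [ih.2, this.2]

lemma A_mem' {w : List Bool} {y : ℝ} (hy : y ∈ Icc (0 : ℝ) 1) : A w y ∈ Icc (0 : ℝ) 1 := by
  induction w with
  | nil => exact hy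
  | cons b w ih =>
    have := bv_mem b
    rw [A]
    constructor
    · linarith [ih.1, this.1]
    · linarith [ih.2, this.2]

/-- the substitution on words, started at the state `s` -/
def rho : Bool → List Bool → List Bool
  | _, [] => []
  | s, false :: w => rho (!s) w
  | s, true :: w => s :: rho (!s) w

/-- the final state -/
def st : Bool → List Bool → Bool
  | s, [] => s
  | s, _ :: w => st (!s) w

lemma Rs_A (s : Bool) (w : List Bool) {y : ℝ} (hy : y ∈ Ioc (0 : ℝ) 1) :
    Rs s (A w y) = A (rho s w) (Rs (st s w) y) := by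
  induction w generalizing s with
  | nil => rfl
  | cons b w ih =>
    cases b
    · have h1 : A (false :: w) y = A w y / 2 := by simp [A, bv]
      rw [h1, Rs_half (A_mem hy), ih]
      rfl
    · have h1 : A (true :: w) y = (1 + A w y) / 2 := by simp [A, bv]
      rw [h1, Rs_half' (A_mem hy), ih]
      rfl

lemma rho_append (s : Bool) (w w' : List Bool) :
    rho s (w ++ w') = rho s w ++ rho (st s w) w' := by
  induction w generalizing s with
  | nil => rfl
  | cons b w ih =>
    cases b
    · simp only [List.cons_append, rho, st, ih]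
    · simp only [List.cons_append, rho, st, ih]

lemma length_rho_le (s : Bool) (w : List Bool) : (rho s w).length ≤ w.length := by
  induction w generalizing s with
  | nil => simp [rho]
  | cons b w ih =>
    cases b
    · rw [rho, List.length_cons]
      exact (ih _).trans (Nat.le_succ _)
    · rw [rho, List.length_cons, List.length_cons]
      exact Nat.succ_le_succ (ih _)

lemma length_rho_rho_lt {w : List Bool} (hw : w ≠ []) :
    (rho false (rho false w)).length < w.length := by
  cases w with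
  | nil => exact absurd rfl hw
  | cons b w =>
    cases b
    · calc (rho false (rho false (false :: w))).length ≤ (rho false (false :: w)).length :=
          length_rho_le _ _
        _ ≤ w.length := length_rho_le true w
        _ < (false :: w).length := by simp
    · have : rho false (rho false (true :: w)) = rho true (rho true w) := rfl
      rw [this]
      calc (rho true (rho true w)).length ≤ (rho true w).length := length_rho_le _ _
        _ ≤ w.length := length_rho_le _ _
        _ < (true :: w).length := by simp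

/-- a word with a given image -/
def lift : Bool → List Bool → List Bool
  | _, [] => []
  | s, c :: v => if s = c then true :: lift (!c) v else false :: true :: lift (!c) v

lemma rho_lift (s : Bool) (v : List Bool) : rho s (lift s v) = v := by
  induction v generalizing s with
  | nil => rfl
  | cons c v ih =>
    unfold lift
    by_cases h : s = c
    · rw [if_pos h, rho, h, ih]
    · have h2 : (!s) = c := by cases s <;> cases c <;> simp_all
      rw [if_neg h, rho, rho, h2, ih]

/-- cylinders -/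
def cyl (w : List Bool) : Set ℝ := A w '' Ioc (0 : ℝ) 1

/-- closed cylinders -/
def ccyl (w : List Bool) : Set ℝ := A w '' Icc (0 : ℝ) 1

lemma exists_word (n : ℕ) {x : ℝ} (hx : x ∈ Ioc (0 : ℝ) 1) :
    ∃ w : List Bool, w.length = n ∧ x ∈ cyl w := by
  induction n generalizing x with
  | zero => exact ⟨[], rfl, x, hx, rfl⟩
  | succ n ih =>
    rcases le_or_gt x (1 / 2) with h | h
    · obtain ⟨w, hw, y, hy, hyx⟩ := ih (x := 2 * x) ⟨by linarith [hx.1], by linarith⟩
      refine ⟨false :: w, by simp [hw], y, hy, ?_⟩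
      rw [A, hyx]
      simp [bv]
    · obtain ⟨w, hw, y, hy, hyx⟩ := ih (x := 2 * x - 1) ⟨by linarith, by linarith [hx.2]⟩
      refine ⟨true :: w, by simp [hw], y, hy, ?_⟩
      rw [A, hyx]
      simp [bv]

lemma dist_ccyl {w : List Bool} {x y : ℝ} (hx : x ∈ ccyl w) (hy : y ∈ ccyl w) :
    |x - y| ≤ (1 / 2) ^ w.length := by
  obtain ⟨a, ha, rfl⟩ := hx
  obtain ⟨b, hb, rfl⟩ := hy
  rw [A_affine w a, A_affine w b]
  have h1 : A w 0 + (1 / 2) ^ w.length * a - (A w 0 + (1 / 2) ^ w.length * b)
      = (1 / 2) ^ w.length * (a - b) := by ring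
  rw [h1, abs_mul, abs_of_pos (by positivity)]
  have h2 : |a - b| ≤ 1 := by
    rw [abs_le]
    constructor <;> linarith [ha.1, ha.2, hb.1, hb.2]
  nlinarith [pow_pos (by norm_num : (0 : ℝ) < 1 / 2) w.length]

lemma cyl_subset (w : List Bool) : cyl w ⊆ ccyl w := image_mono Ioc_subset_Icc_self

/-- the orbit of `x` is dense in `[0,1]` -/
def DenseOrbit (x : ℝ) : Prop :=
  ∀ y ∈ Icc (0 : ℝ) 1, ∀ ε : ℝ, 0 < ε → ∃ n : ℕ, |R^[n] x - y| < ε

lemma denseOrbit_of_ccyl {x : ℝ} (h : ∀ v : List Bool, ∃ k : ℕ, R^[k] x ∈ ccyl v) :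
    DenseOrbit x := by
  intro y hy ε hε
  obtain ⟨y', hy', hyy'⟩ : ∃ y' ∈ Ioc (0 : ℝ) 1, |y' - y| < ε / 2 := by
    rcases eq_or_lt_of_le hy.1 with h0 | h0
    · refine ⟨min 1 (ε / 4), ⟨by positivity, min_le_left _ _⟩, ?_⟩
      rw [← h0, sub_zero, abs_of_pos (by positivity)]
      have := min_le_right 1 (ε / 4)
      linarith
    · exact ⟨y, ⟨h0, hy.2⟩, by simpa using by positivity⟩
  obtain ⟨n, hn⟩ := exists_pow_lt_of_lt_one (by positivity : 0 < ε / 2)
    (by norm_num : (1 / 2 : ℝ) < 1)
  obtain ⟨v, hv, hyv⟩ := exists_word n hy'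
  obtain ⟨k, hk⟩ := h v
  refine ⟨k, ?_⟩
  have h1 := dist_ccyl hk (cyl_subset v hyv)
  rw [hv] at h1
  have h2 : R^[k] x - y = (R^[k] x - y') + (y' - y) := by ring
  rw [h2]
  calc |R^[k] x - y' + (y' - y)| ≤ |R^[k] x - y'| + |y' - y| := abs_add_le _ _
    _ < ε := by linarith

end Pool.Agent.Q188.ES
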