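import Pool.Agent.Q188.ES.Defs

/-!
# The laws of the iterates of the erasing substitution map
-/

set_option autoImplicit false

open Set Filter Topology MeasureTheory

namespace Pool.Agent.Q188.ES

lemma measurable_digit (k : ℕ) : Measurable fun x => digit x k := by
  unfold digit
  have h1 : Measurable fun x : ℝ => ⌈2 ^ k * x⌉ :=
    Int.measurable_ceil.comp (measurable_const.mul measurable_id)
  exact (measurable_of_countable (fun n : ℤ => (n - 1) % 2)).comp h1

lemma measurable_ones (k : ℕ) : Measurable fun x => ones x k := by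
  unfold ones
  apply Finset.measurable_fun_sum
  intro i _
  exact (measurable_of_countable (fun n : ℤ => if n = 1 then (1 : ℕ) else 0)).comp
    (measurable_digit i)

lemma measurable_tm (s : Bool) (k : ℕ) : Measurable fun x => tm s x k := by
  unfold tm
  refine Measurable.ite ?_ ?_ measurable_const
  · have h1 : MeasurableSet {x : ℝ | digit x k = 1} :=
      measurable_digit k (measurableSet_singleton 1)
    exact h1.inter (MeasurableSet.const _)
  · exact (measurable_of_countable (fun n : ℕ => (1 / 2 : ℝ) ^ n)).comp (measurable_ones k)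

lemma measurable_Rs (s : Bool) : Measurable (Rs s) := by
  have h1 : ∀ n : ℕ, Measurable fun x => ∑ k ∈ Finset.range n, tm s x k := by
    intro n
    apply Finset.measurable_fun_sum
    intro k _
    exact measurable_tm s k
  refine measurable_of_tendsto_metrizable h1 ?_
  rw [tendsto_pi_nhds]
  intro x
  exact (summable_tm s x).hasSum.tendsto_sum_nat

/-- Lebesgue measure of the part in `(0,1]` -/
noncomputable def P (S : Set ℝ) : ℝ := (volume (S ∩ Ioc (0 : ℝ) 1)).toReal

lemma fin (S : Set ℝ) : volume (S ∩ Ioc (0 : ℝ) 1) ≠ ⊤ :=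
  ((measure_mono inter_subset_right).trans_lt (by simp)).ne

lemma P_nonneg (S : Set ℝ) : 0 ≤ P S := ENNReal.toReal_nonneg

lemma P_mono_ae {S T : Set ℝ} (h : ∀ᵐ x, x ∈ Ioc (0 : ℝ) 1 → x ∈ S → x ∈ T) : P S ≤ P T := by
  apply ENNReal.toReal_mono (fin T)
  apply measure_mono_ae
  filter_upwards [h] with x hx hxS
  exact ⟨hx hxS.2 hxS.1, hxS.2⟩

lemma P_mono {S T : Set ℝ} (h : ∀ x ∈ Ioc (0 : ℝ) 1, x ∈ S → x ∈ T) : P S ≤ P T :=
  P_mono_ae (Eventually.of_forall h)

lemma P_congr_ae {S T : Set ℝ} (h : ∀ᵐ x, x ∈ Ioc (0 : ℝ) 1 → (x ∈ S ↔ x ∈ T)) : P S = P T :=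
  le_antisymm (P_mono_ae (h.mono fun _ hx h1 h2 => (hx h1).1 h2))
    (P_mono_ae (h.mono fun _ hx h1 h2 => (hx h1).2 h2))

lemma P_congr {S T : Set ℝ} (h : ∀ x ∈ Ioc (0 : ℝ) 1, (x ∈ S ↔ x ∈ T)) : P S = P T :=
  P_congr_ae (Eventually.of_forall h)

lemma P_left {S : Set ℝ} : P (S ∩ Iic (1 / 2)) = P {y | y / 2 ∈ S} / 2 := by
  have h1 : {y : ℝ | y / 2 ∈ S} ∩ Ioc 0 1 =
      (fun y : ℝ => (1 / 2) * y) ⁻¹' (S ∩ Iic (1 / 2) ∩ Ioc 0 1) := by
    ext y
    simp only [mem_inter_iff, mem_ofPred_eq, mem_preimage, mem_Iic, mem_Ioc]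
    rw [show (1 / 2 : ℝ) * y = y / 2 by ring]
    constructor
    · rintro ⟨h1, h2, h3⟩
      exact ⟨⟨h1, by linarith⟩, by linarith, by linarith⟩
    · rintro ⟨⟨h1, h2⟩, h3, h4⟩
      exact ⟨h1, by linarith, by linarith⟩
  rw [P, P, h1, Real.volume_preimage_mul_left (by norm_num), ENNReal.toReal_mul,
    ENNReal.toReal_ofReal (abs_nonneg _)]
  norm_num

lemma P_right {S : Set ℝ} : P (S ∩ Ioi (1 / 2)) = P {y | (1 + y) / 2 ∈ S} / 2 := by
  have h1 : {y : ℝ | (1 + y) / 2 ∈ S} ∩ Ioc 0 1 =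
      (fun y : ℝ => (1 / 2) * y) ⁻¹' ((fun y : ℝ => 1 / 2 + y) ⁻¹'
        (S ∩ Ioi (1 / 2) ∩ Ioc 0 1)) := by
    ext y
    simp only [mem_inter_iff, mem_ofPred_eq, mem_preimage, mem_Ioi, mem_Ioc]
    rw [show (1 / 2 : ℝ) + 1 / 2 * y = (1 + y) / 2 by ring]
    constructor
    · rintro ⟨h1, h2, h3⟩
      exact ⟨⟨h1, by linarith⟩, by linarith, by linarith⟩
    · rintro ⟨⟨h1, h2⟩, h3, h4⟩
      exact ⟨h1, by linarith, by linarith⟩
  rw [P, P, h1, Real.volume_preimage_mul_left (by norm_num), ENNReal.toReal_mul,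
    ENNReal.toReal_ofReal (abs_nonneg _), measure_preimage_add]
  norm_num

lemma P_split (S : Set ℝ) : P S = P (S ∩ Iic (1 / 2)) + P (S ∩ Ioi (1 / 2)) := by
  have h := measure_inter_add_sdiff (μ := volume) (S ∩ Ioc (0 : ℝ) 1)
    (measurableSet_Iic (a := (1 / 2 : ℝ)))
  have e1 : S ∩ Ioc (0 : ℝ) 1 ∩ Iic (1 / 2) = S ∩ Iic (1 / 2) ∩ Ioc 0 1 := by
    rw [inter_right_comm]
  have e2 : (S ∩ Ioc (0 : ℝ) 1) \ Iic (1 / 2) = S ∩ Ioi (1 / 2) ∩ Ioc 0 1 := by
    rw [sdiff_eq, compl_Iic, inter_right_comm]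
  rw [e1, e2] at h
  rw [P, P, P, ← h, ENNReal.toReal_add (fin _) (fin _)]

lemma P_half (S : Set ℝ) : P S = (P {y | y / 2 ∈ S} + P {y | (1 + y) / 2 ∈ S}) / 2 := by
  rw [P_split S, P_left, P_right]; ring

/-- almost every value is positive -/
lemma Rs_pos_ae (s : Bool) : ∀ᵐ x, x ∈ Ioc (0 : ℝ) 1 → 0 < Rs s x := by
  have h1 : P {x | Rs false x = 0} = P {x | Rs true x = 0} := by
    rw [P_half {x | Rs false x = 0}]
    have e1 : P {y | y / 2 ∈ {x | Rs false x = 0}} = P {x | Rs true x = 0} :=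
      P_congr fun x hx => by simp only [mem_ofPred_eq, Rs_half hx, Bool.not_false]
    have e2 : P {y | (1 + y) / 2 ∈ {x | Rs false x = 0}} = P {x | Rs true x = 0} :=
      P_congr fun x hx => by
        simp only [mem_ofPred_eq, Rs_half' hx, Bool.not_false, bv]
        simp
    rw [e1, e2]; ring
  have h2 : P {x | Rs true x = 0} = P {x | Rs false x = 0} / 2 := by
    rw [P_half {x | Rs true x = 0}]
    have e1 : P {y | y / 2 ∈ {x | Rs true x = 0}} = P {x | Rs false x = 0} :=
      P_congr fun x hx => by simp only [mem_ofPred_eq, Rs_half hx, Bool.not_true]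
    have e2 : P {y | (1 + y) / 2 ∈ {x | Rs true x = 0}} = P (∅ : Set ℝ) :=
      P_congr fun x hx => by
        simp only [mem_ofPred_eq, Rs_half' hx, Bool.not_true, bv, if_true, mem_empty_iff_false,
          iff_false]
        have := Rs_nonneg false x
        intro h
        linarith
    have e3 : P (∅ : Set ℝ) = 0 := by simp [P]
    rw [e1, e2, e3]; ring
  have h3 : P {x | Rs s x = 0} = 0 := by
    cases s <;> linarith
  have h4 : volume ({x | Rs s x = 0} ∩ Ioc (0 : ℝ) 1) = 0 := by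
    rw [P, ENNReal.toReal_eq_zero_iff] at h3
    exact h3.resolve_right (fin _)
  have h5 : ∀ᵐ x, x ∉ {x | Rs s x = 0} ∩ Ioc (0 : ℝ) 1 := measure_eq_zero_iff_ae_notMem.1 h4
  filter_upwards [h5] with x hx hxI
  rcases eq_or_lt_of_le (Rs_nonneg s x) with h | h
  · exact absurd ⟨h.symm, hxI⟩ hx
  · exact h

/-- the law of `R_t ∘ R_s` -/
noncomputable def M (t s : Bool) (B : Set ℝ) : ℝ := P {x | Rs t (Rs s x) ∈ B}

lemma M_false (t : Bool) (B : Set ℝ) : M t false B = (M t true B + M (!t) true B) / 2 := by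
  rw [M, P_half]
  have e1 : P {y | y / 2 ∈ {x | Rs t (Rs false x) ∈ B}} = M t true B :=
    P_congr fun x hx => by simp only [mem_ofPred_eq, Rs_half hx, Bool.not_false]
  have e2 : P {y | (1 + y) / 2 ∈ {x | Rs t (Rs false x) ∈ B}} = M (!t) true B := by
    apply P_congr_ae
    filter_upwards [Rs_pos_ae true] with x hx hxI
    have h1 : (bv false + Rs true x) / 2 = Rs true x / 2 := by simp [bv]
    simp only [mem_ofPred_eq, Rs_half' hxI, Bool.not_false]
    rw [h1, Rs_half ⟨hx hxI, Rs_le _ _⟩]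
  rw [e1, e2]

lemma M_true (t : Bool) (B : Set ℝ) :
    M t true B = (M t false B + M (!t) false {z | (bv t + z) / 2 ∈ B}) / 2 := by
  rw [M, P_half]
  have e1 : P {y | y / 2 ∈ {x | Rs t (Rs true x) ∈ B}} = M t false B :=
    P_congr fun x hx => by simp only [mem_ofPred_eq, Rs_half hx, Bool.not_true]
  have e2 : P {y | (1 + y) / 2 ∈ {x | Rs t (Rs true x) ∈ B}} =
      M (!t) false {z | (bv t + z) / 2 ∈ B} := by
    apply P_congr_ae
    filter_upwards [Rs_pos_ae false] with x hx hxI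
    have h1 : (bv true + Rs false x) / 2 = (1 + Rs false x) / 2 := by simp [bv]
    simp only [mem_ofPred_eq, Rs_half' hxI, Bool.not_true]
    rw [h1, Rs_half' ⟨hx hxI, Rs_le _ _⟩]
  rw [e1, e2]

lemma M_tf (B : Set ℝ) : M true false B = M false false B := by
  rw [M_false true, M_false false, Bool.not_true, Bool.not_false, add_comm]

lemma M_self (B : Set ℝ) : M false false B =
    (M false false {z | z / 2 ∈ B} + M false false {z | (1 + z) / 2 ∈ B}) / 2 := by
  have h1 := M_true false B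
  have h2 := M_true true B
  have h3 := M_false false B
  rw [Bool.not_false, M_tf] at h1
  rw [Bool.not_true, M_tf] at h2
  have e1 : {z : ℝ | (bv false + z) / 2 ∈ B} = {z | z / 2 ∈ B} := by simp [bv]
  have e2 : {z : ℝ | (bv true + z) / 2 ∈ B} = {z | (1 + z) / 2 ∈ B} := by simp [bv]
  rw [e1] at h1
  rw [e2] at h2
  rw [Bool.not_false] at h3
  linarith

lemma P_univ : P univ = 1 := by simp [P]

lemma g_neg {a : ℝ} (ha : a < 0) : M false false (Iic a) = 0 := by
  have : {x | Rs false (Rs false x) ∈ Iic a} = ∅ := by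
    ext x
    simp only [mem_ofPred_eq, mem_Iic, mem_empty_iff_false, iff_false, not_le]
    exact ha.trans_le (Rs_nonneg _ _)
  rw [M, this, P]
  simp

lemma g_one {a : ℝ} (ha : 1 ≤ a) : M false false (Iic a) = 1 := by
  have : {x | Rs false (Rs false x) ∈ Iic a} = univ := by
    ext x
    simp only [mem_ofPred_eq, mem_Iic, mem_univ, iff_true]
    exact (Rs_le _ _).trans ha
  rw [M, this, P_univ]

lemma g_rec (a : ℝ) : M false false (Iic a) =
    (M false false (Iic (2 * a)) + M false false (Iic (2 * a - 1))) / 2 := by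
  have h := M_self (Iic a)
  have e1 : {z : ℝ | z / 2 ∈ Iic a} = Iic (2 * a) := by
    ext z; simp only [mem_ofPred_eq, mem_Iic]; constructor <;> intro h <;> linarith
  have e2 : {z : ℝ | (1 + z) / 2 ∈ Iic a} = Iic (2 * a - 1) := by
    ext z; simp only [mem_ofPred_eq, mem_Iic]; constructor <;> intro h <;> linarith
  rwa [e1, e2] at h

lemma g_nonpos {a : ℝ} (ha : a ≤ 0) : M false false (Iic a) = 0 := by
  rcases eq_or_lt_of_le ha with h | h
  · subst h
    have h1 := g_rec 0
    rw [mul_zero, zero_sub, g_neg (by norm_num : (-1 : ℝ) < 0)] at h1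
    linarith
  · exact g_neg h

lemma g_mem (a : ℝ) : M false false (Iic a) ∈ Icc (0 : ℝ) 1 := by
  refine ⟨P_nonneg _, ?_⟩
  rw [← P_univ]
  exact P_mono fun _ _ _ => mem_univ _

lemma g_eq (k : ℕ) : ∀ a ∈ Icc (0 : ℝ) 1, |M false false (Iic a) - a| ≤ (1 / 2) ^ k := by
  induction k with
  | zero =>
    intro a ha
    have := g_mem a
    rw [pow_zero, abs_le]
    constructor <;> linarith [this.1, this.2, ha.1, ha.2]
  | succ k ih =>
    intro a ha
    rw [g_rec a]
    rcases le_or_gt a (1 / 2) with h | h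
    · rw [g_nonpos (by linarith : 2 * a - 1 ≤ 0)]
      have h1 := ih (2 * a) ⟨by linarith [ha.1], by linarith⟩
      have e : (M false false (Iic (2 * a)) + 0) / 2 - a
          = (M false false (Iic (2 * a)) - 2 * a) / 2 := by ring
      rw [e, abs_div, abs_two, pow_succ]
      linarith
    · rw [g_one (by linarith : 1 ≤ 2 * a)]
      have h1 := ih (2 * a - 1) ⟨by linarith, by linarith [ha.2]⟩
      have e : (1 + M false false (Iic (2 * a - 1))) / 2 - a
          = (M false false (Iic (2 * a - 1)) - (2 * a - 1)) / 2 := by ring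
      rw [e, abs_div, abs_two, pow_succ]
      linarith

lemma g_id {a : ℝ} (ha : a ∈ Icc (0 : ℝ) 1) : M false false (Iic a) = a := by
  by_contra hne
  have hpos : 0 < |M false false (Iic a) - a| := abs_pos.2 (sub_ne_zero.2 hne)
  obtain ⟨k, hk⟩ := exists_pow_lt_of_lt_one hpos (by norm_num : (1 / 2 : ℝ) < 1)
  have := g_eq k a ha
  linarith

lemma P_Iic {a : ℝ} (ha : a ∈ Icc (0 : ℝ) 1) : P (Iic a) = a := by
  have : Iic a ∩ Ioc (0 : ℝ) 1 = Ioc 0 a := by
    ext x
    simp only [mem_inter_iff, mem_Iic, mem_Ioc]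
    constructor
    · rintro ⟨h1, h2, h3⟩; exact ⟨h2, h1⟩
    · rintro ⟨h1, h2⟩; exact ⟨h2, h1, h2.trans ha.2⟩
  rw [P, this, Real.volume_Ioc, sub_zero, ENNReal.toReal_ofReal ha.1]

/-- `R²` preserves Lebesgue measure -/
lemma M_ff {B : Set ℝ} (hB : MeasurableSet B) : M false false B = P B := by
  set μ : Measure ℝ := volume.restrict (Ioc (0 : ℝ) 1) with hμ
  have hm : Measurable fun x => Rs false (Rs false x) :=
    (measurable_Rs false).comp (measurable_Rs false)
  have hfin : IsFiniteMeasure μ := ⟨by rw [hμ]; simp⟩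
  have h1 : ∀ {S : Set ℝ}, MeasurableSet S → P S = (μ S).toReal := by
    intro S hS
    rw [P, hμ, Measure.restrict_apply hS]
  have h2 : ∀ {S : Set ℝ}, MeasurableSet S →
      M false false S = (Measure.map (fun x => Rs false (Rs false x)) μ S).toReal := by
    intro S hS
    rw [M, Measure.map_apply hm hS]
    exact h1 (hm hS)
  have h3 : Measure.map (fun x => Rs false (Rs false x)) μ = μ := by
    have : IsFiniteMeasure (Measure.map (fun x => Rs false (Rs false x)) μ) :=
      Measure.isFiniteMeasure_map μ _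
    apply Measure.ext_of_Iic
    intro a
    have h4 : M false false (Iic a) = P (Iic a) := by
      rcases le_or_gt a 0 with h | h
      · rw [g_nonpos h]
        have : Iic a ∩ Ioc (0 : ℝ) 1 = ∅ := by
          ext x
          simp only [mem_inter_iff, mem_Iic, mem_Ioc, mem_empty_iff_false, iff_false, not_and]
          intro h1 h2
          linarith
        rw [P, this]; simp
      · rcases le_or_gt a 1 with h' | h'
        · rw [g_id ⟨h.le, h'⟩, P_Iic ⟨h.le, h'⟩]
        · rw [g_one h'.le]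
          have : Iic a ∩ Ioc (0 : ℝ) 1 = univ ∩ Ioc 0 1 := by
            ext x
            simp only [mem_inter_iff, mem_Iic, mem_Ioc, mem_univ, true_and, and_iff_right_iff_imp]
            intro h1
            linarith [h1.2]
          rw [P, this, ← P, P_univ]
    rw [h1 measurableSet_Iic, h2 measurableSet_Iic] at h4
    exact (ENNReal.toReal_eq_toReal_iff' (measure_ne_top _ _) (measure_ne_top _ _)).1 h4
  rw [h1 hB, h2 hB, h3]

/-- the law with first digit `1` with probability `q` and uniform remaining digits -/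
noncomputable def K (q : ℝ) (B : Set ℝ) : ℝ :=
  2 * (1 - q) * P (B ∩ Iic (1 / 2)) + 2 * q * P (B ∩ Ioi (1 / 2))

lemma K_eq (q : ℝ) (B : Set ℝ) :
    K q B = (1 - q) * P {y | y / 2 ∈ B} + q * P {y | (1 + y) / 2 ∈ B} := by
  rw [K, P_left, P_right]; ring

lemma K_half (B : Set ℝ) : K (1 / 2) B = P B := by
  rw [K_eq, P_half B]; ring

lemma K_mono_ae {q : ℝ} (hq : q ∈ Icc (0 : ℝ) 1) {S T : Set ℝ}
    (h : ∀ᵐ x, x ∈ Ioc (0 : ℝ) 1 → x ∈ S → x ∈ T) : K q S ≤ K q T := by
  have h1 : P (S ∩ Iic (1 / 2)) ≤ P (T ∩ Iic (1 / 2)) :=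
    P_mono_ae (h.mono fun x hx h1 h2 => ⟨hx h1 h2.1, h2.2⟩)
  have h2 : P (S ∩ Ioi (1 / 2)) ≤ P (T ∩ Ioi (1 / 2)) :=
    P_mono_ae (h.mono fun x hx h1 h2 => ⟨hx h1 h2.1, h2.2⟩)
  have h3 := hq.1
  have h4 : 0 ≤ 1 - q := by linarith [hq.2]
  unfold K
  gcongr

lemma M_cases (t s : Bool) : ∃ q ∈ Icc (0 : ℝ) 1, (∀ B : Set ℝ, MeasurableSet B →
    M t s B = K q B) ∧ (∀ B : Set ℝ, MeasurableSet B → P B / 2 ≤ K q B) := by
  cases s
  · -- uniform
    refine ⟨1 / 2, by norm_num, fun B hB => ?_, fun B _ => ?_⟩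
    · rw [K_half]
      cases t
      · exact M_ff hB
      · rw [M_tf]; exact M_ff hB
    · rw [K_half]
      linarith [P_nonneg B]
  · cases t
    · refine ⟨1 / 4, by norm_num, fun B hB => ?_, fun B _ => ?_⟩
      · have hm : MeasurableSet {z : ℝ | z / 2 ∈ B} := (measurable_id.div_const 2) hB
        rw [M_true, Bool.not_false, M_tf, M_ff hB]
        have e1 : {z : ℝ | (bv false + z) / 2 ∈ B} = {z | z / 2 ∈ B} := by simp [bv]
        rw [e1, M_ff hm, K_eq, P_half B]
        ring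
      · rw [K_eq, P_half B]
        have h1 := P_nonneg {y | y / 2 ∈ B}
        have h2 := P_nonneg {y | (1 + y) / 2 ∈ B}
        linarith
    · refine ⟨3 / 4, by norm_num, fun B hB => ?_, fun B _ => ?_⟩
      · have hm : MeasurableSet {z : ℝ | (1 + z) / 2 ∈ B} :=
          ((measurable_id.const_add 1).div_const 2) hB
        rw [M_true, Bool.not_true, M_tf, M_ff hB]
        have e1 : {z : ℝ | (bv true + z) / 2 ∈ B} = {z | (1 + z) / 2 ∈ B} := by simp [bv]
        rw [e1, M_ff hm, K_eq, P_half B]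
        ring
      · rw [K_eq, P_half B]
        have h1 := P_nonneg {y | y / 2 ∈ B}
        have h2 := P_nonneg {y | (1 + y) / 2 ∈ B}
        linarith

/-- one double step of a biased law -/
lemma K_step {q : ℝ} (hq : q ∈ Icc (0 : ℝ) 1) (t s : Bool) : ∃ q' ∈ Icc (0 : ℝ) 1,
    ∀ B : Set ℝ, MeasurableSet B → K q {x | Rs t (Rs s x) ∈ B} = K q' B := by
  obtain ⟨q₁, hq₁, h₁, -⟩ := M_cases t (!s)
  have e1 : ∀ B : Set ℝ, P {y | y / 2 ∈ {x | Rs t (Rs s x) ∈ B}} = M t (!s) B := fun B =>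
    P_congr fun x hx => by simp only [mem_ofPred_eq, Rs_half hx]
  have comb : ∀ (q₂ : ℝ), q₂ ∈ Icc (0 : ℝ) 1 →
      (∀ B : Set ℝ, MeasurableSet B →
        P {y | (1 + y) / 2 ∈ {x | Rs t (Rs s x) ∈ B}} = K q₂ B) →
      ∃ q' ∈ Icc (0 : ℝ) 1,
        ∀ B : Set ℝ, MeasurableSet B → K q {x | Rs t (Rs s x) ∈ B} = K q' B := by
    intro q₂ hq₂ h₂
    have h3 : 0 ≤ 1 - q := by linarith [hq.2]
    refine ⟨(1 - q) * q₁ + q * q₂, ⟨?_, ?_⟩, fun B hB => ?_⟩
    · have := mul_nonneg h3 hq₁.1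
      have := mul_nonneg hq.1 hq₂.1
      linarith
    · have := mul_le_mul_of_nonneg_left hq₁.2 h3
      have := mul_le_mul_of_nonneg_left hq₂.2 hq.1
      linarith
    · rw [K_eq q, e1, h₁ B hB, h₂ B hB, K, K, K]
      ring
  cases s
  · obtain ⟨q₂, hq₂, h₂, -⟩ := M_cases (!t) true
    refine comb q₂ hq₂ fun B hB => ?_
    rw [← h₂ B hB]
    apply P_congr_ae
    filter_upwards [Rs_pos_ae true] with x hx hxI
    have h1 : (bv false + Rs true x) / 2 = Rs true x / 2 := by simp [bv]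
    simp only [mem_ofPred_eq, Rs_half' hxI, Bool.not_false]
    rw [h1, Rs_half ⟨hx hxI, Rs_le _ _⟩]
  · refine comb (bv t) (bv_mem t) fun B hB => ?_
    have h2 : P {y | (1 + y) / 2 ∈ {x | Rs t (Rs true x) ∈ B}} =
        M (!t) false {z | (bv t + z) / 2 ∈ B} := by
      apply P_congr_ae
      filter_upwards [Rs_pos_ae false] with x hx hxI
      have h1 : (bv true + Rs false x) / 2 = (1 + Rs false x) / 2 := by simp [bv]
      simp only [mem_ofPred_eq, Rs_half' hxI, Bool.not_true]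
      rw [h1, Rs_half' ⟨hx hxI, Rs_le _ _⟩]
    have hm : MeasurableSet {z : ℝ | (bv t + z) / 2 ∈ B} :=
      ((measurable_id.const_add (bv t)).div_const 2) hB
    rw [h2]
    cases t
    · rw [Bool.not_false, M_tf, M_ff hm, K_eq]
      simp [bv]
    · rw [Bool.not_true, M_ff hm, K_eq]
      simp [bv]

/-- two last steps -/
lemma K_final {q : ℝ} (hq : q ∈ Icc (0 : ℝ) 1) {B : Set ℝ} (hB : MeasurableSet B) :
    P B / 2 ≤ K q {x | Rs false (Rs false x) ∈ B} := by
  obtain ⟨q₁, hq₁, h₁, h₁'⟩ := M_cases false true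
  obtain ⟨q₂, hq₂, h₂, h₂'⟩ := M_cases true true
  have e1 : P {y | y / 2 ∈ {x | Rs false (Rs false x) ∈ B}} = M false true B :=
    P_congr fun x hx => by simp only [mem_ofPred_eq, Rs_half hx, Bool.not_false]
  have e2 : P {y | (1 + y) / 2 ∈ {x | Rs false (Rs false x) ∈ B}} = M true true B := by
    apply P_congr_ae
    filter_upwards [Rs_pos_ae true] with x hx hxI
    have h1 : (bv false + Rs true x) / 2 = Rs true x / 2 := by simp [bv]
    simp only [mem_ofPred_eq, Rs_half' hxI, Bool.not_false]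
    rw [h1, Rs_half ⟨hx hxI, Rs_le _ _⟩, Bool.not_false]
  rw [K_eq, e1, e2, h₁ B hB, h₂ B hB]
  have h3 := h₁' B hB
  have h4 := h₂' B hB
  have h5 : 0 ≤ 1 - q := by linarith [hq.2]
  have h6 := mul_le_mul_of_nonneg_left h3 h5
  have h7 := mul_le_mul_of_nonneg_left h4 hq.1
  linarith

/-- the tracking estimate -/
lemma track {S : Set ℝ} (hS : MeasurableSet S)
    (hSR : ∀ x ∈ Ioc (0 : ℝ) 1, 0 < Rs false x → Rs false (Rs false x) ∈ S → x ∈ S) (n : ℕ) :
    ∀ w : List Bool, w.length ≤ n → ∀ q ∈ Icc (0 : ℝ) 1, P S / 2 ≤ K q {y | A w y ∈ S} := by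
  induction n with
  | zero =>
    intro w hw q hq
    have : w = [] := List.length_eq_zero_iff.1 (by omega)
    subst this
    refine (K_final hq hS).trans (K_mono_ae hq ?_)
    filter_upwards [Rs_pos_ae false] with x hx hxI hxS
    exact hSR x hxI (hx hxI) hxS
  | succ n ih =>
    intro w hw q hq
    by_cases hne : w = []
    · subst hne
      refine (K_final hq hS).trans (K_mono_ae hq ?_)
      filter_upwards [Rs_pos_ae false] with x hx hxI hxS
      exact hSR x hxI (hx hxI) hxS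
    · set s := st false w with hs
      set t := st false (rho false w) with ht
      set w'' := rho false (rho false w) with hw''
      obtain ⟨q', hq', hK⟩ := K_step hq t s
      have hlen := length_rho_rho_lt hne
      have hmeas : MeasurableSet {y : ℝ | A w'' y ∈ S} := by
        have : Measurable fun y => A w'' y := by
          have h1 : (fun y => A w'' y) = fun y => A w'' 0 + (1 / 2) ^ w''.length * y := by
            funext y; exact A_affine w'' y
          rw [h1]
          fun_prop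
        exact this hS
      have h1 := ih w'' (by rw [hw'']; omega) q' hq'
      rw [← hK _ hmeas] at h1
      refine h1.trans (K_mono_ae hq ?_)
      filter_upwards [Rs_pos_ae s] with x hx hxI hxS
      have h2 : Rs false (A w x) = A (rho false w) (Rs s x) := Rs_A false w hxI
      have h3 : Rs s x ∈ Ioc (0 : ℝ) 1 := ⟨hx hxI, Rs_le _ _⟩
      have h4 : Rs false (Rs false (A w x)) = A w'' (Rs t (Rs s x)) := by
        rw [h2, Rs_A false _ h3]
      apply hSR _ (A_mem hxI)
      · rw [h2]; exact (A_mem h3).1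
      · rw [h4]; exact hxS

lemma track' {S : Set ℝ} (hS : MeasurableSet S)
    (hSR : ∀ x ∈ Ioc (0 : ℝ) 1, 0 < Rs false x → Rs false (Rs false x) ∈ S → x ∈ S)
    (w : List Bool) : P S / 2 ≤ P {y | A w y ∈ S} := by
  have h := track hS hSR w.length w le_rfl (1 / 2) (by norm_num)
  rwa [K_half] at h

end Pool.Agent.Q188.ES
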